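import Mathlib
import Pool.Agent.H507R3.RamAll

/-!
# Hypergraphs witnessing failure of the fixed intersection property

If `[r]^(p)` does not have the fixed intersection property, then there is an `r`-uniform
hypergraph `G` such that the `p`-sets of vertices split into `C(r,p)` classes with no edge having
all its `p`-subsets in one class, while every orientation of `G` has a `p`-set of vertices all of
whose `I`-degrees are positive.
-/

set_option autoImplicit false

namespace Pool.Agent.Results.MP_2e96e9_co.Witness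

open Finset

/-- `[n]^(p)`: the `p`-element subsets of an `n`-element set. -/
abbrev Sub (n p : ℕ) := {I : Finset (Fin n) // I.card = p}

/-- `f : [n]^(p) → [n]^(p)` fixes an intersection. -/
def FixesIntersection (n p : ℕ) (f : Sub n p → Sub n p) : Prop :=
  ∃ x y : Sub n p, x ≠ y ∧ ((f x).1 ∩ (f y).1).card = (x.1 ∩ y.1).card

/-- `[n]^(p)` has the fixed intersection property. -/
def FixedIntersectionProperty (n p : ℕ) : Prop :=
  ∀ f : Sub n p → Sub n p, (∃ x y, f x ≠ f y) → FixesIntersection n p f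

/-- A finite `r`-uniform hypergraph (vertices are labelled by natural numbers). -/
structure Hypergraph (r : ℕ) where
  /-- the vertex set -/
  V : Finset ℕ
  /-- the edge set -/
  E : Finset (Finset ℕ)
  sub : ∀ e ∈ E, e ⊆ V
  uniform : ∀ e ∈ E, e.card = r

/-- An orientation: for every edge `e` a linear ordering `(x_1, ..., x_r)` of its vertices. -/
structure Orientation {r : ℕ} (G : Hypergraph r) where
  /-- the ordering of the edge `e` -/
  ord : Finset ℕ → Fin r → ℕ
  inj : ∀ e ∈ G.E, Function.Injective (ord e)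
  image : ∀ e ∈ G.E, univ.image (ord e) = e

/-- The `I`-degree of a set of vertices. -/
def deg {r : ℕ} (G : Hypergraph r) (D : Orientation G) (I : Finset (Fin r)) (A : Finset ℕ) : ℕ :=
  (G.E.filter (fun e => I.image (D.ord e) = A)).card

/-! ### Weak colourings and gadgets -/

section gadgets

variable {K : Type} {p r : ℕ}

/-- all `p`-subsets of `e` get the same colour -/
def Mono (p : ℕ) (c : Finset ℕ → K) (e : Finset ℕ) : Prop :=
  ∀ A ⊆ e, ∀ B ⊆ e, A.card = p → B.card = p → c A = c B

/-- no edge is monochromatic -/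
def Weak (p : ℕ) (F : Finset (Finset ℕ)) (c : Finset ℕ → K) : Prop :=
  ∀ e ∈ F, ¬ Mono p c e

/-- agreement on the `p`-subsets of `S` -/
def Agree (p : ℕ) (S : Finset ℕ) (c c' : Finset ℕ → K) : Prop :=
  ∀ A ⊆ S, A.card = p → c A = c' A

theorem Agree.symm {S : Finset ℕ} {c c' : Finset ℕ → K} (h : Agree p S c c') : Agree p S c' c :=
  fun A hA hc => (h A hA hc).symm

theorem Agree.mono {S T : Finset ℕ} {c c' : Finset ℕ → K} (hST : S ⊆ T) (h : Agree p T c c') :
    Agree p S c c' :=
  fun A hA hc => h A (hA.trans hST) hc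

theorem Agree.trans {S : Finset ℕ} {c c' c'' : Finset ℕ → K} (h : Agree p S c c')
    (h' : Agree p S c' c'') : Agree p S c c'' :=
  fun A hA hc => (h A hA hc).trans (h' A hA hc)

theorem mono_congr {S e : Finset ℕ} {c c' : Finset ℕ → K} (h : Agree p S c c') (he : e ⊆ S)
    (hm : Mono p c e) : Mono p c' e := by
  intro A hA B hB hAc hBc
  rw [← h A (hA.trans he) hAc, ← h B (hB.trans he) hBc]
  exact hm A hA B hB hAc hBc

/-- realisability of a constraint -/
def Rlz (p r : ℕ) (S : Finset ℕ) (Φ : Finset (Finset ℕ) → (Finset ℕ → K) → Prop)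
    (Ψ : (Finset ℕ → K) → Prop) : Prop :=
  ∃ F : Finset (Finset ℕ), (∀ e ∈ F, e.card = r) ∧ (∀ c, Weak p F c → Φ F c) ∧
    ∀ c, Ψ c → ∃ c', Weak p F c' ∧ Agree p S c' c

theorem rlz_and {S : Finset ℕ} {Φ₁ Φ₂ : Finset (Finset ℕ) → (Finset ℕ → K) → Prop}
    {Ψ₁ Ψ₂ : (Finset ℕ → K) → Prop}
    (hm₁ : ∀ F F' c, F ⊆ F' → Φ₁ F c → Φ₁ F' c)
    (hm₂ : ∀ F F' c, F ⊆ F' → Φ₂ F c → Φ₂ F' c)
    (hloc : ∀ c c', Agree p S c c' → Ψ₂ c → Ψ₂ c')
    (h₁ : Rlz p r S Φ₁ Ψ₁) (h₂ : ∀ S', S ⊆ S' → Rlz p r S' Φ₂ Ψ₂) :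
    Rlz p r S (fun F c => Φ₁ F c ∧ Φ₂ F c) (fun c => Ψ₁ c ∧ Ψ₂ c) := by
  obtain ⟨F₁, u₁, a₁, b₁⟩ := h₁
  obtain ⟨F₂, u₂, a₂, b₂⟩ := h₂ (S ∪ F₁.sup id) subset_union_left
  refine ⟨F₁ ∪ F₂, ?_, ?_, ?_⟩
  · intro e he
    rcases mem_union.1 he with he | he
    · exact u₁ e he
    · exact u₂ e he
  · intro c hc
    exact ⟨hm₁ _ _ _ subset_union_left (a₁ c fun e he => hc e (mem_union_left _ he)),
      hm₂ _ _ _ subset_union_right (a₂ c fun e he => hc e (mem_union_right _ he))⟩
  · rintro c ⟨hc1, hc2⟩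
    obtain ⟨c₁, w₁, g₁⟩ := b₁ c hc1
    obtain ⟨c₂, w₂, g₂⟩ := b₂ c₁ (hloc _ _ g₁.symm hc2)
    refine ⟨c₂, ?_, (g₂.mono subset_union_left).trans g₁⟩
    intro e he
    rcases mem_union.1 he with he | he
    · intro hmono
      refine w₁ e he (mono_congr g₂ ?_ hmono)
      have : e ⊆ F₁.sup id := Finset.le_sup (f := id) he
      exact this.trans subset_union_right
    · exact w₂ e he

theorem rlz_conj {ι : Type*} [DecidableEq ι] (S₀ : Finset ℕ)
    (Φ : ι → Finset (Finset ℕ) → (Finset ℕ → K) → Prop) (Ψ : ι → (Finset ℕ → K) → Prop)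
    (I : Finset ι)
    (hm : ∀ i ∈ I, ∀ F F' c, F ⊆ F' → Φ i F c → Φ i F' c)
    (hloc : ∀ i ∈ I, ∀ c c', Agree p S₀ c c' → Ψ i c → Ψ i c')
    (h : ∀ i ∈ I, ∀ S, S₀ ⊆ S → Rlz p r S (Φ i) (Ψ i)) :
    ∀ S, S₀ ⊆ S → Rlz p r S (fun F c => ∀ i ∈ I, Φ i F c) (fun c => ∀ i ∈ I, Ψ i c) := by
  induction I using Finset.induction_on with
  | empty =>
    intro S _
    refine ⟨∅, by simp, fun c _ i hi => absurd hi (notMem_empty _), fun c _ => ⟨c, ?_, ?_⟩⟩
    · intro e he
      exact absurd he (notMem_empty _)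
    · intro A _ _
      rfl
  | insert a I ha ih =>
    intro S hS
    have h1 := ih (fun i hi => hm i (mem_insert_of_mem hi))
      (fun i hi => hloc i (mem_insert_of_mem hi)) (fun i hi => h i (mem_insert_of_mem hi)) S hS
    have h2 := rlz_and (Φ₂ := Φ a) (Ψ₂ := Ψ a)
      (fun F F' c hF hh i hi => hm i (mem_insert_of_mem hi) F F' c hF (hh i hi))
      (hm a (mem_insert_self _ _))
      (fun c c' hcc => hloc a (mem_insert_self _ _) c c' (hcc.mono hS)) h1
      (fun S' hS' => h a (mem_insert_self _ _) S' (hS.trans hS'))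
    obtain ⟨F, u, x, y⟩ := h2
    refine ⟨F, u, ?_, ?_⟩
    · intro c hc i hi
      rcases mem_insert.1 hi with rfl | hi
      · exact (x c hc).2
      · exact (x c hc).1 i hi
    · intro c hc
      exact y c ⟨fun i hi => hc i (mem_insert_of_mem hi), hc a (mem_insert_self _ _)⟩

theorem rlz_imp {S S₁ : Finset ℕ} (hS : S ⊆ S₁)
    {Φ Φ₁ : Finset (Finset ℕ) → (Finset ℕ → K) → Prop} {Ψ Ψ₁ : (Finset ℕ → K) → Prop}
    (h : Rlz p r S₁ Φ₁ Ψ₁) (h1 : ∀ F c, Φ₁ F c → Φ F c)
    (h2 : ∀ c, Ψ c → ∃ c₁, Agree p S c₁ c ∧ Ψ₁ c₁) : Rlz p r S Φ Ψ := by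
  obtain ⟨F, u, a, b⟩ := h
  refine ⟨F, u, fun c hc => h1 F c (a c hc), fun c hc => ?_⟩
  obtain ⟨c₁, g₁, hc₁⟩ := h2 c hc
  obtain ⟨c', w, g⟩ := b c₁ hc₁
  exact ⟨c', w, (g.mono hS).trans g₁⟩

theorem rlz_edge {S e : Finset ℕ} (he : e.card = r)
    {Φ : Finset (Finset ℕ) → (Finset ℕ → K) → Prop} {Ψ : (Finset ℕ → K) → Prop}
    (heS : e ⊆ S)
    (hm : ∀ F F' c, F ⊆ F' → Φ F c → Φ F' c) (h : Rlz p r S Φ Ψ) :
    Rlz p r S (fun F c => Φ F c ∧ e ∈ F ∧ ¬ Mono p c e) (fun c => Ψ c ∧ ¬ Mono p c e) := by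
  obtain ⟨F, u, a, b⟩ := h
  refine ⟨insert e F, ?_, ?_, ?_⟩
  · intro x hx
    rcases mem_insert.1 hx with rfl | hx
    · exact he
    · exact u x hx
  · intro c hc
    exact ⟨hm _ _ _ (subset_insert _ _) (a c fun x hx => hc x (mem_insert_of_mem hx)),
      mem_insert_self _ _, hc e (mem_insert_self _ _)⟩
  · rintro c ⟨hc, hce⟩
    obtain ⟨c', w, g⟩ := b c hc
    refine ⟨c', ?_, g⟩
    intro x hx
    rcases mem_insert.1 hx with rfl | hx
    · exact fun hmono => hce (mono_congr g heS hmono)
    · exact w x hx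

/-- the Ramsey gadget -/
theorem gadget [Fintype K] [Nonempty K] (p r : ℕ) :
    ∃ (E₀ : Finset (Finset ℕ)) (e₀ : Finset ℕ), e₀.card = r ∧ (∀ e ∈ E₀, e.card = r) ∧
      (∃ c : Finset ℕ → K, Weak p E₀ c) ∧ ∀ c : Finset ℕ → K, Weak p E₀ c → Mono p c e₀ := by
  classical
  obtain ⟨N, hN⟩ := Pool.Agent.H507R3.RamAll.ramsey_finset K p r
  by_contra hcon
  push Not at hcon
  have key : ∀ E : Finset (Finset ℕ), (∀ e ∈ E, e.card = r) → ∃ c : Finset ℕ → K, Weak p E c := by
    intro E
    induction E using Finset.induction_on with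
    | empty =>
      intro _
      exact ⟨fun _ => Classical.arbitrary K, fun e he => absurd he (notMem_empty _)⟩
    | insert a E ha ih =>
      intro hE
      obtain ⟨c, hc, hca⟩ := hcon E a (hE a (mem_insert_self _ _))
        (fun e he => hE e (mem_insert_of_mem he)) (ih fun e he => hE e (mem_insert_of_mem he))
      refine ⟨c, fun e he => ?_⟩
      rcases mem_insert.1 he with rfl | he
      · exact hca
      · exact hc e he
  obtain ⟨c, hc⟩ := key ((range N).powersetCard r) (fun e he => (mem_powersetCard.1 he).2)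
  obtain ⟨T, hT, hTc, k, hk⟩ := hN (range N) c (by simp)
  refine hc T (mem_powersetCard.2 ⟨hT, hTc⟩) ?_
  intro A hA B hB hAc hBc
  rw [hk A hA hAc, hk B hB hBc]

theorem mono_image {ι : ℕ → ℕ} (hι : Function.Injective ι) {c : Finset ℕ → K} {g : Finset ℕ} :
    Mono p (fun A => c (A.image ι)) g ↔ Mono p c (g.image ι) := by
  constructor
  · intro h A hA B hB hAc hBc
    obtain ⟨A', hA', rfl⟩ := subset_image_iff.1 hA
    obtain ⟨B', hB', rfl⟩ := subset_image_iff.1 hB
    rw [card_image_of_injective _ hι] at hAc hBc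
    exact h A' (by exact_mod_cast hA') B' (by exact_mod_cast hB') hAc hBc
  · intro h A hA B hB hAc hBc
    exact h _ (image_subset_image hA) _ (image_subset_image hB)
      (by rw [card_image_of_injective _ hι, hAc]) (by rw [card_image_of_injective _ hι, hBc])

theorem rlz_mono [Fintype K] [DecidableEq K] [Nonempty K] (hpr : p ≤ r) {S e : Finset ℕ}
    (he : e.card = r) (heS : e ⊆ S) :
    Rlz p r S (fun _ c => Mono p c e) (fun c : Finset ℕ → K => Mono p c e) := by
  obtain ⟨E₀, e₀, he₀, hE₀, ⟨c₀, hc₀⟩, hg⟩ := gadget (K := K) p r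
  -- the injection
  let g := Finset.equivOfCardEq (he₀.trans he.symm)
  set M := S.sup id + 1 with hM
  have hSM : ∀ v ∈ S, v < M := by
    intro v hv
    have : v ≤ S.sup id := Finset.le_sup (f := id) hv
    omega
  let ι : ℕ → ℕ := fun v => if h : v ∈ e₀ then (g ⟨v, h⟩ : ℕ) else v + M
  have hι1 : ∀ v (h : v ∈ e₀), ι v = g ⟨v, h⟩ := fun v h => by simp [ι, h]
  have hι2 : ∀ v, v ∉ e₀ → ι v = v + M := fun v h => by simp [ι, h]
  have hι3 : ∀ v ∈ e₀, ι v ∈ e := fun v h => by
    rw [hι1 v h]; exact (g ⟨v, h⟩).2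
  have hι4 : ∀ v, ι v ∈ S → v ∈ e₀ := by
    intro v hv
    by_contra h
    rw [hι2 v h] at hv
    have := hSM _ hv
    omega
  have hι : Function.Injective ι := by
    intro v w hvw
    by_cases hv : v ∈ e₀ <;> by_cases hw : w ∈ e₀
    · rw [hι1 v hv, hι1 w hw] at hvw
      have := g.injective (Subtype.ext hvw)
      exact congrArg Subtype.val this
    · exfalso
      have h1 := hSM _ (heS (hι3 v hv))
      rw [hvw, hι2 w hw] at h1
      omega
    · exfalso
      have h1 := hSM _ (heS (hι3 w hw))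
      rw [← hvw, hι2 v hv] at h1
      omega
    · rw [hι2 v hv, hι2 w hw] at hvw
      omega
  have hιe : e₀.image ι = e := by
    apply eq_of_subset_of_card_le
    · intro x hx
      obtain ⟨v, hv, rfl⟩ := mem_image.1 hx
      exact hι3 v hv
    · rw [card_image_of_injective _ hι, he₀, he]
  refine ⟨E₀.image (fun g => g.image ι), ?_, ?_, ?_⟩
  · intro f hf
    obtain ⟨x, hx, rfl⟩ := mem_image.1 hf
    rw [card_image_of_injective _ hι, hE₀ x hx]
  · intro c hc
    have h1 : Weak p E₀ (fun A => c (A.image ι)) := by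
      intro x hx hmono
      exact hc _ (mem_image_of_mem _ hx) ((mono_image hι).1 hmono)
    have h2 := (mono_image hι).1 (hg _ h1)
    rwa [hιe] at h2
  · intro c hc
    obtain ⟨B₀, hB₀, hB₀c⟩ := exists_subset_card_eq (s := e₀) (n := p) (by omega)
    have hmono₀ := hg c₀ hc₀
    set k₀ := c₀ B₀
    set k := c (B₀.image ι)
    refine ⟨fun A => if A ⊆ S then c A else
      Equiv.swap k₀ k (c₀ (A.preimage ι hι.injOn)), ?_, ?_⟩
    · intro f hf hmono
      obtain ⟨x, hx, rfl⟩ := mem_image.1 hf
      have h1 := (mono_image hι).2 hmono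
      refine hc₀ x hx ?_
      have h2 : ∀ A ⊆ x, A.card = p →
          (if A.image ι ⊆ S then c (A.image ι) else
            Equiv.swap k₀ k (c₀ ((A.image ι).preimage ι hι.injOn))) = Equiv.swap k₀ k (c₀ A) := by
        intro A hA hAc
        split_ifs with hs
        · have hAe : A ⊆ e₀ := fun v hv => hι4 v (hs (mem_image_of_mem _ hv))
          have h3 : c₀ A = k₀ := hmono₀ A hAe B₀ hB₀ hAc hB₀c
          rw [h3, Equiv.swap_apply_left]
          refine hc _ ?_ _ ?_ ?_ ?_
          · rw [← hιe]; exact image_subset_image hAe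
          · rw [← hιe]; exact image_subset_image hB₀
          · rw [card_image_of_injective _ hι, hAc]
          · rw [card_image_of_injective _ hι, hB₀c]
        · congr 2
          ext v
          rw [mem_preimage, mem_image]
          constructor
          · rintro ⟨w, hw, hwv⟩
            rwa [← hι hwv]
          · intro hv
            exact ⟨v, hv, rfl⟩
      intro A hA B hB hAc hBc
      have h3 := h1 A hA B hB hAc hBc
      simp only at h3
      rw [h2 A hA hAc, h2 B hB hBc] at h3
      exact (Equiv.swap k₀ k).injective h3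
    · intro A hA _
      simp only
      rw [if_pos hA]

/-- if all `r`-subsets of `X` are monochromatic, so is `X` -/
theorem mono_of_subsets (hpr : p < r) {X : Finset ℕ} (hX : r ≤ X.card) {c : Finset ℕ → K}
    (h : ∀ e ⊆ X, e.card = r → Mono p c e) : Mono p c X := by
  have step : ∀ A ⊆ X, ∀ B ⊆ X, A.card = p → B.card = p → (A ∪ B).card ≤ r → c A = c B := by
    intro A hA B hB hAc hBc hAB
    obtain ⟨e, h1, h2, h3⟩ := exists_subsuperset_card_eq (union_subset hA hB) hAB hX
    exact h e h2 h3 A (subset_union_left.trans h1) B (subset_union_right.trans h1) hAc hBc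
  have main : ∀ n : ℕ, ∀ A ⊆ X, ∀ B ⊆ X, A.card = p → B.card = p → (A \ B).card = n →
      c A = c B := by
    intro n
    induction n with
    | zero =>
      intro A hA B hB hAc hBc hn
      have : A ⊆ B := by
        rw [← sdiff_eq_empty_iff_subset]
        exact card_eq_zero.1 hn
      rw [eq_of_subset_of_card_le this (by omega)]
    | succ n ih =>
      intro A hA B hB hAc hBc hn
      have hne : (A \ B).Nonempty := by
        rw [← card_pos]; omega
      obtain ⟨a, ha⟩ := hne
      rw [mem_sdiff] at ha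
      have hne' : (B \ A).Nonempty := by
        rw [← card_pos]
        have h1 := card_sdiff_add_card_inter A B
        have h2 := card_sdiff_add_card_inter B A
        rw [inter_comm] at h2
        omega
      obtain ⟨b, hb⟩ := hne'
      rw [mem_sdiff] at hb
      have hA'c : (insert b (A.erase a)).card = p := by
        rw [card_insert_of_notMem (fun h => hb.2 (mem_of_mem_erase h)), card_erase_of_mem ha.1]
        have : 0 < A.card := card_pos.2 ⟨a, ha.1⟩
        omega
      have hA'X : insert b (A.erase a) ⊆ X := by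
        intro x hx
        rcases mem_insert.1 hx with rfl | hx
        · exact hB hb.1
        · exact hA (mem_of_mem_erase hx)
      rw [step A hA _ hA'X hAc hA'c ?_]
      · apply ih _ hA'X B hB hA'c hBc
        have h1 : insert b (A.erase a) \ B = (A \ B).erase a := by
          ext x
          simp only [mem_sdiff, mem_insert, mem_erase]
          constructor
          · rintro ⟨rfl | ⟨h1, h2⟩, h3⟩
            · exact absurd hb.1 h3
            · exact ⟨h1, h2, h3⟩
          · rintro ⟨h1, h2, h3⟩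
            exact ⟨Or.inr ⟨h1, h2⟩, h3⟩
        rw [h1, card_erase_of_mem (mem_sdiff.2 ha), hn]
        rfl
      · have h1 : A ∪ insert b (A.erase a) ⊆ insert b A := by
          intro x hx
          rcases mem_union.1 hx with hx | hx
          · exact mem_insert_of_mem hx
          · rcases mem_insert.1 hx with rfl | hx
            · exact mem_insert_self _ _
            · exact mem_insert_of_mem (mem_of_mem_erase hx)
        have h2 := card_le_card h1
        rw [card_insert_of_notMem hb.2] at h2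
        omega
  intro A hA B hB hAc hBc
  exact main _ A hA B hB hAc hBc rfl

theorem rlz_link [Fintype K] [DecidableEq K] [Nonempty K] (hpr : p < r) {S x y : Finset ℕ}
    (hxc : x.card = p) (hyc : y.card = p) (hx : x ⊆ S) (hy : y ⊆ S) :
    Rlz p r S (fun _ c => c x = c y) (fun c : Finset ℕ → K => c x = c y) := by
  set M := S.sup id + 1 with hM
  have hSM : ∀ v ∈ S, v < M := by
    intro v hv
    have : v ≤ S.sup id := Finset.le_sup (f := id) hv
    omega
  set Z := (range r).image (fun i => i + M) with hZ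
  have hZc : Z.card = r := by
    rw [hZ, card_image_of_injective _ (fun a b h => by simpa using h), card_range]
  have hZM : ∀ v ∈ Z, M ≤ v := by
    intro v hv
    obtain ⟨i, _, rfl⟩ := mem_image.1 hv
    omega
  have hdis : ∀ v ∈ Z, v ∉ S := fun v hv hv' => by
    have h1 := hZM v hv
    have h2 := hSM v hv'
    omega
  set 𝓔 := (x ∪ Z).powersetCard r ∪ (y ∪ Z).powersetCard r with h𝓔
  have h𝓔S : ∀ e ∈ 𝓔, e ⊆ S ∪ Z ∧ e.card = r := by
    intro e he
    rcases mem_union.1 he with he | he
    · rw [mem_powersetCard] at he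
      exact ⟨he.1.trans (union_subset_union hx (Subset.refl _)), he.2⟩
    · rw [mem_powersetCard] at he
      exact ⟨he.1.trans (union_subset_union hy (Subset.refl _)), he.2⟩
  have h1 := rlz_conj (p := p) (r := r) (S ∪ Z) (fun e (_ : Finset (Finset ℕ)) c => Mono p c e)
    (fun e (c : Finset ℕ → K) => Mono p c e) 𝓔 (fun i _ F F' c _ h => h)
    (fun i hi c c' hcc h => mono_congr hcc (h𝓔S i hi).1 h)
    (fun i hi S' hS' => rlz_mono hpr.le (h𝓔S i hi).2 ((h𝓔S i hi).1.trans hS')) (S ∪ Z)
    (Subset.refl _)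
  refine rlz_imp subset_union_left h1 ?_ ?_
  · intro _ c hc
    obtain ⟨Z', hZ', hZ'c⟩ := exists_subset_card_eq (s := Z) (n := p) (by omega)
    have hX : Mono p c (x ∪ Z) := mono_of_subsets hpr
      (by rw [← hZc]; exact card_le_card subset_union_right)
      (fun e he hec => hc e (mem_union_left _ (mem_powersetCard.2 ⟨he, hec⟩)))
    have hY : Mono p c (y ∪ Z) := mono_of_subsets hpr
      (by rw [← hZc]; exact card_le_card subset_union_right)
      (fun e he hec => hc e (mem_union_right _ (mem_powersetCard.2 ⟨he, hec⟩)))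
    rw [hX x subset_union_left Z' (hZ'.trans subset_union_right) hxc hZ'c,
      hY y subset_union_left Z' (hZ'.trans subset_union_right) hyc hZ'c]
  · intro c hc
    have key : ∀ u : Finset ℕ, u.card = p → u ⊆ S → c u = c x → ∀ e ⊆ u ∪ Z, ∀ A ⊆ e,
        A.card = p → (if A ⊆ S then c A else c x) = c x := by
      intro u huc huS hcu e he A hA hAc
      split_ifs with hs
      · have : A ⊆ u := by
          intro v hv
          rcases mem_union.1 (he (hA hv)) with h | h
          · exact h
          · exact absurd (hs hv) (hdis v h)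
        rw [eq_of_subset_of_card_le this (by omega), hcu]
      · rfl
    refine ⟨fun A => if A ⊆ S then c A else c x, ?_, ?_⟩
    · intro A hA _
      simp only
      rw [if_pos hA]
    · intro e he A hA B hB hAc hBc
      simp only
      rcases mem_union.1 he with he | he
      · rw [mem_powersetCard] at he
        rw [key x hxc hx rfl e he.1 A hA hAc, key x hxc hx rfl e he.1 B hB hBc]
      · rw [mem_powersetCard] at he
        rw [key y hyc hy hc.symm e he.1 A hA hAc, key y hyc hy hc.symm e he.1 B hB hBc]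

/-- a new edge whose `p`-subsets are tied to given `p`-sets of `S` -/
theorem rlz_tie [Fintype K] [DecidableEq K] [Nonempty K] (hp : 1 ≤ p) (hpr : p < r)
    {S : Finset ℕ} (g : Sub r p → Finset ℕ) (hgc : ∀ A, (g A).card = p) (hgS : ∀ A, g A ⊆ S) :
    Rlz p r S (fun F c => (∃ A B, c (g A) ≠ c (g B)) ∧
        ∃ φ : Fin r → ℕ, Function.Injective φ ∧ univ.image φ ∈ F ∧
          ∀ A : Sub r p, c (A.1.image φ) = c (g A))
      (fun c : Finset ℕ → K => ∃ A B, c (g A) ≠ c (g B)) := by
  set M := S.sup id + 1 with hM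
  have hSM : ∀ v ∈ S, v < M := by
    intro v hv
    have : v ≤ S.sup id := Finset.le_sup (f := id) hv
    omega
  let φ : Fin r → ℕ := fun i => i.val + M
  have hφ : Function.Injective φ := by
    intro i j hij
    have : i.val + M = j.val + M := hij
    exact Fin.ext (by omega)
  have hφM : ∀ i, φ i ∉ S := by
    intro i hi
    have h1 := hSM _ hi
    have h2 : φ i = i.val + M := rfl
    omega
  set Z := (univ : Finset (Fin r)).image φ with hZ
  have hZc : Z.card = r := by
    rw [hZ, card_image_of_injective _ hφ, card_univ, Fintype.card_fin]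
  have hsub : ∀ A : Finset (Fin r), A.image φ ⊆ Z := fun A => image_subset_image (subset_univ _)
  have hnS : ∀ A : Sub r p, ¬ A.1.image φ ⊆ S := by
    intro A hA
    obtain ⟨a, ha⟩ : A.1.Nonempty := by
      rw [← card_pos, A.2]; omega
    exact hφM a (hA (mem_image_of_mem _ ha))
  have hsurj : ∀ B ⊆ Z, B.card = p → ∃ A : Sub r p, B = A.1.image φ := by
    intro B hB hBc
    obtain ⟨A, _, hA⟩ := subset_image_iff.1 hB
    refine ⟨⟨A, ?_⟩, hA.symm⟩
    rw [← hBc, ← hA, card_image_of_injective _ hφ]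
  have h1 := rlz_conj (p := p) (r := r) (S ∪ Z)
    (fun (A : Sub r p) (_ : Finset (Finset ℕ)) c => c (A.1.image φ) = c (g A))
    (fun A (c : Finset ℕ → K) => c (A.1.image φ) = c (g A)) univ (fun i _ F F' c _ h => h)
    (fun A _ c c' hcc h => by
      rw [← hcc (A.1.image φ) ((hsub A.1).trans subset_union_right)
        (by rw [card_image_of_injective _ hφ, A.2]),
        ← hcc (g A) ((hgS A).trans subset_union_left) (hgc A), h])
    (fun A _ S' hS' => rlz_link hpr (by rw [card_image_of_injective _ hφ, A.2]) (hgc A)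
      (((hsub A.1).trans subset_union_right).trans hS')
      (((hgS A).trans subset_union_left).trans hS')) (S ∪ Z) (Subset.refl _)
  have h2 := rlz_edge hZc (subset_union_right) (fun F F' c hF h => h) h1
  refine rlz_imp subset_union_left h2 ?_ ?_
  · rintro F c ⟨hc, hZF, hnm⟩
    refine ⟨?_, φ, hφ, hZF, fun A => hc A (mem_univ _)⟩
    by_contra hcon
    push Not at hcon
    refine hnm ?_
    intro A hA B hB hAc hBc
    obtain ⟨A', rfl⟩ := hsurj A hA hAc
    obtain ⟨B', rfl⟩ := hsurj B hB hBc
    rw [hc A' (mem_univ _), hc B' (mem_univ _)]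
    exact hcon A' B'
  · rintro c ⟨A₀, B₀, hAB⟩
    classical
    have hval : ∀ A : Sub r p, (if A.1.image φ ⊆ S then c (A.1.image φ) else
        if h : ∃ A' : Sub r p, A.1.image φ = A'.1.image φ then c (g h.choose) else
          c (A.1.image φ)) = c (g A) := by
      intro A
      rw [if_neg (hnS A), dif_pos ⟨A, rfl⟩]
      have h3 := (⟨A, rfl⟩ : ∃ A' : Sub r p, A.1.image φ = A'.1.image φ).choose_spec
      have h4 := Finset.image_injective hφ h3
      rw [← Subtype.ext h4]
    have hgv : ∀ A : Sub r p, (if g A ⊆ S then c (g A) else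
        if h : ∃ A' : Sub r p, g A = A'.1.image φ then c (g h.choose) else
          c (g A)) = c (g A) := by
      intro A
      rw [if_pos (hgS A)]
    refine ⟨fun B => if B ⊆ S then c B else
      if h : ∃ A : Sub r p, B = A.1.image φ then c (g h.choose) else c B, ?_, ?_, ?_⟩
    · intro A hA _
      simp only
      rw [if_pos hA]
    · intro A _
      simp only
      rw [hval A, hgv A]
    · intro hmono
      have h5 := hmono (A₀.1.image φ) (hsub _) (B₀.1.image φ) (hsub _)
        (by rw [card_image_of_injective _ hφ, A₀.2]) (by rw [card_image_of_injective _ hφ, B₀.2])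
      simp only at h5
      rw [hval A₀, hval B₀] at h5
      exact hAB h5

end gadgets

/-! ### Bad edges -/

section bad

variable {p r : ℕ}

/-- `e` has an ordering in which no `p`-subset sits in the positions given by its colour -/
def Good (c : Finset ℕ → Sub r p) (e : Finset ℕ) : Prop :=
  ∃ σ : Fin r → ℕ, Function.Injective σ ∧ univ.image σ = e ∧ ∀ I : Sub r p, c (I.1.image σ) ≠ I

theorem Good.not_mono (hpr : p ≤ r) {c : Finset ℕ → Sub r p} {e : Finset ℕ} (h : Good c e) :
    ¬ Mono p c e := by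
  obtain ⟨σ, hσ, rfl, h⟩ := h
  intro hm
  obtain ⟨I₀, -, hI₀⟩ := exists_subset_card_eq (s := (univ : Finset (Fin r))) (n := p)
    (by rw [card_univ, Fintype.card_fin]; exact hpr)
  set k := c (I₀.image σ) with hk
  refine h k ?_
  rw [hk]
  exact hm _ (image_subset_image (subset_univ _)) _ (image_subset_image (subset_univ _))
    (by rw [card_image_of_injective _ hσ, k.2]) (by rw [card_image_of_injective _ hσ, hI₀])

/-- the action of a permutation on `[r]^(p)` -/
def act (π : Equiv.Perm (Fin r)) (I : Sub r p) : Sub r p :=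
  ⟨I.1.map π.toEmbedding, by rw [card_map]; exact I.2⟩

theorem act_mul (π ρ : Equiv.Perm (Fin r)) (I : Sub r p) : act (π * ρ) I = act π (act ρ I) := by
  apply Subtype.ext
  ext x
  simp only [act, mem_map, Equiv.coe_toEmbedding, Equiv.Perm.coe_mul, Function.comp_apply]
  constructor
  · rintro ⟨a, ha, rfl⟩
    exact ⟨ρ a, ⟨a, ha, rfl⟩, rfl⟩
  · rintro ⟨b, ⟨a, ha, rfl⟩, rfl⟩
    exact ⟨a, ha, rfl⟩

theorem act_inv_act (π : Equiv.Perm (Fin r)) (I : Sub r p) : act π⁻¹ (act π I) = I := by
  rw [← act_mul, inv_mul_cancel]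
  apply Subtype.ext
  exact map_refl

theorem act_trans (I J : Sub r p) : ∃ ρ : Equiv.Perm (Fin r), act ρ I = J := by
  let e := Finset.equivOfCardEq (I.2.trans J.2.symm)
  refine ⟨e.extendSubtype, ?_⟩
  apply Subtype.ext
  apply eq_of_subset_of_card_le
  · intro x hx
    obtain ⟨a, ha, rfl⟩ := mem_map.1 hx
    exact e.extendSubtype_mem a ha
  · rw [(act e.extendSubtype I).2, J.2]

theorem act_inter (π : Equiv.Perm (Fin r)) (I J : Sub r p) :
    ((act π I).1 ∩ (act π J).1).card = (I.1 ∩ J.1).card := by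
  simp only [act]
  rw [← map_inter, card_map]

/-- if `f` fixes no intersection, every permutation agrees with `f` somewhere -/
theorem cover (f : Sub r p → Sub r p) (hf : ¬ FixesIntersection r p f) (L₀ : Sub r p)
    (π : Equiv.Perm (Fin r)) : ∃ J : Sub r p, act π J = f J := by
  classical
  by_contra hcon
  push Not at hcon
  -- each permutation agrees at most once
  have hle : ∀ ρ : Equiv.Perm (Fin r),
      ((univ : Finset (Sub r p)).filter (fun J => act ρ J = f J)).card ≤ 1 := by
    intro ρ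
    rw [card_le_one]
    intro A hA B hB
    rw [mem_filter] at hA hB
    by_contra hAB
    refine hf ⟨A, B, hAB, ?_⟩
    rw [← hA.2, ← hB.2, act_inter]
  have hcount : ∀ J : Sub r p,
      ((univ : Finset (Equiv.Perm (Fin r))).filter (fun ρ => act ρ J = f J)).card =
      ((univ : Finset (Equiv.Perm (Fin r))).filter (fun ρ => act ρ J = L₀)).card := by
    intro J
    obtain ⟨τ, hτ⟩ := act_trans (f J) L₀
    refine card_bij (fun ρ _ => τ * ρ) ?_ ?_ ?_
    · intro ρ hρ
      rw [mem_filter] at hρ ⊢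
      refine ⟨mem_univ _, ?_⟩
      rw [act_mul, hρ.2, hτ]
    · intro a _ b _ hab
      exact mul_left_cancel hab
    · intro ρ hρ
      rw [mem_filter] at hρ
      refine ⟨τ⁻¹ * ρ, ?_, by group⟩
      rw [mem_filter]
      refine ⟨mem_univ _, ?_⟩
      rw [act_mul, hρ.2, ← hτ, act_inv_act]
  have hone : ∀ ρ : Equiv.Perm (Fin r),
      ((univ : Finset (Sub r p)).filter (fun J => act ρ J = L₀)).card = 1 := by
    intro ρ
    rw [card_eq_one]
    refine ⟨act ρ⁻¹ L₀, ?_⟩
    ext J
    rw [mem_filter, mem_singleton]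
    constructor
    · rintro ⟨_, h⟩
      rw [← h, act_inv_act]
    · rintro rfl
      refine ⟨mem_univ _, ?_⟩
      have := act_inv_act ρ⁻¹ L₀
      rwa [inv_inv] at this
  have e1 : ∑ ρ : Equiv.Perm (Fin r),
        ((univ : Finset (Sub r p)).filter (fun J => act ρ J = f J)).card =
      ∑ J : Sub r p,
        ((univ : Finset (Equiv.Perm (Fin r))).filter (fun ρ => act ρ J = f J)).card := by
    simp only [card_filter]
    exact sum_comm
  have e2 : ∑ ρ : Equiv.Perm (Fin r),
        ((univ : Finset (Sub r p)).filter (fun J => act ρ J = L₀)).card =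
      ∑ J : Sub r p,
        ((univ : Finset (Equiv.Perm (Fin r))).filter (fun ρ => act ρ J = L₀)).card := by
    simp only [card_filter]
    exact sum_comm
  rw [sum_congr rfl (fun J _ => hcount J), ← e2, sum_congr rfl (fun ρ _ => hone ρ)] at e1
  have h3 : ∑ ρ : Equiv.Perm (Fin r),
        ((univ : Finset (Sub r p)).filter (fun J => act ρ J = f J)).card <
      ∑ _ρ : Equiv.Perm (Fin r), 1 := by
    apply sum_lt_sum (fun ρ _ => hle ρ)
    refine ⟨π, mem_univ _, ?_⟩
    rw [filter_eq_empty_iff.2 (fun J _ => hcon J)]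
    simp
  omega

/-- an edge coloured as `f` is bad -/
theorem bad_of_pattern {f : Sub r p → Sub r p} (hf : ¬ FixesIntersection r p f)
    {φ : Fin r → ℕ} {c : Finset ℕ → Sub r p}
    (hc : ∀ A : Sub r p, c (A.1.image φ) = f A) : ¬ Good c (univ.image φ) := by
  rintro ⟨σ, hσ, himg, h⟩
  -- the permutation with `σ = φ ∘ τ`
  have hex : ∀ i, ∃ j, φ j = σ i := by
    intro i
    have : σ i ∈ univ.image φ := by
      rw [← himg]; exact mem_image_of_mem _ (mem_univ _)
    obtain ⟨j, _, hj⟩ := mem_image.1 this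
    exact ⟨j, hj⟩
  choose τ hτ using hex
  have hτi : Function.Injective τ := by
    intro i j hij
    apply hσ
    rw [← hτ i, ← hτ j, hij]
  have hτb : Function.Bijective τ := Finite.injective_iff_bijective.1 hτi
  let t : Equiv.Perm (Fin r) := Equiv.ofBijective τ hτb
  obtain ⟨J, hJ⟩ := cover f hf (c ∅) t⁻¹
  have h1 := h (act t⁻¹ J)
  have h2 : (act t⁻¹ J).1.image σ = J.1.image φ := by
    ext x
    simp only [act, mem_image, mem_map, Equiv.coe_toEmbedding]
    constructor
    · rintro ⟨a, ⟨b, hb, rfl⟩, rfl⟩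
      refine ⟨b, hb, ?_⟩
      rw [← hτ]
      congr 1
      exact (Equiv.apply_symm_apply t b).symm
    · rintro ⟨b, hb, rfl⟩
      refine ⟨t⁻¹ b, ⟨b, hb, rfl⟩, ?_⟩
      rw [← hτ]
      congr 1
      exact Equiv.apply_symm_apply t b
  rw [h2, hc J] at h1
  exact h1 hJ.symm

end bad

/-! ### The final construction -/

/-- the reference sets -/
def ref {r p : ℕ} (I : Sub r p) : Finset ℕ := I.1.image Fin.val

theorem ref_card {r p : ℕ} (I : Sub r p) : (ref I).card = p := by
  rw [ref, card_image_of_injective _ Fin.val_injective, I.2]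

theorem ref_inj {r p : ℕ} {I J : Sub r p} (h : ref I = ref J) : I = J :=
  Subtype.ext (Finset.image_injective Fin.val_injective h)

theorem ref_sub {r p : ℕ} (I : Sub r p) : ref I ⊆ range r := by
  intro x hx
  obtain ⟨i, _, rfl⟩ := mem_image.1 hx
  exact mem_range.2 i.2

theorem rlz_ne {p r : ℕ} {K : Type} [Fintype K] [DecidableEq K] [Nonempty K] (hp : 1 ≤ p)
    (hpr : p < r) (a₀ a₁ : Sub r p) (ha : a₀ ≠ a₁) {S x y : Finset ℕ}
    (hxc : x.card = p) (hyc : y.card = p) (hx : x ⊆ S) (hy : y ⊆ S) :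
    Rlz p r S (fun _ c => c x ≠ c y) (fun c : Finset ℕ → K => c x ≠ c y) := by
  have h := rlz_tie (K := K) hp hpr (S := S) (fun A => if A = a₀ then x else y)
    (fun A => by split_ifs <;> assumption)
    (fun A => by split_ifs <;> assumption)
  refine rlz_imp (Subset.refl _) h ?_ ?_
  · rintro F c ⟨⟨A, B, hAB⟩, -⟩ hxy
    refine hAB ?_
    split_ifs <;> simp [hxy]
  · intro c hc
    refine ⟨c, fun _ _ _ => rfl, a₀, a₁, ?_⟩
    rwa [if_pos rfl, if_neg ha.symm]

theorem rlz_beta {p r : ℕ} (hp : 1 ≤ p) (hpr : p < r) {f : Sub r p → Sub r p}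
    (hf : ¬ FixesIntersection r p f) (hnc : ∃ x y, f x ≠ f y) (β : Equiv.Perm (Sub r p))
    {S : Finset ℕ} (hS : range r ⊆ S) :
    Rlz p r S (fun F c => (∀ I, c (ref I) = β I) → ∃ e ∈ F, ¬ Good c e)
      (fun c : Finset ℕ → Sub r p => Function.Injective (fun I : Sub r p => c (ref I))) := by
  obtain ⟨A₀, B₀, hAB⟩ := hnc
  have : Nonempty (Sub r p) := ⟨A₀⟩
  have h := rlz_tie (K := Sub r p) hp hpr (S := S) (fun A => ref (β.symm (f A)))
    (fun A => ref_card _) (fun A => (ref_sub _).trans hS)
  refine rlz_imp (Subset.refl _) h ?_ ?_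
  · rintro F c ⟨-, φ, hφ, hF, hc⟩ hβ
    refine ⟨_, hF, bad_of_pattern hf ?_⟩
    intro A
    rw [hc A, hβ, Equiv.apply_symm_apply]
  · intro c hc
    refine ⟨c, fun _ _ _ => rfl, A₀, B₀, ?_⟩
    intro h
    exact hAB (β.symm.injective (hc h))

theorem result (r p : ℕ) (hp : 1 ≤ p) (hpr : p ≤ r) (h : ¬ FixedIntersectionProperty r p) :
    ∃ G : Hypergraph r,
      (∃ W : Fin (r.choose p) → Finset (Finset ℕ),
        (∀ i, (W i).Nonempty) ∧ (∀ i, W i ⊆ G.V.powersetCard p) ∧
        (∀ i j, i ≠ j → Disjoint (W i) (W j)) ∧ (∀ A ∈ G.V.powersetCard p, ∃ i, A ∈ W i) ∧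
        ∀ e ∈ G.E, ∀ i, ¬ e.powersetCard p ⊆ W i) ∧
      ∀ D : Orientation G, ∃ A ∈ G.V.powersetCard p,
        ∀ I ∈ (univ : Finset (Fin r)).powersetCard p, 0 < deg G D I A := by
  classical
  unfold FixedIntersectionProperty at h
  push Not at h
  obtain ⟨f, ⟨a₀, b₀, hab⟩, hf⟩ := h
  have hne : a₀ ≠ b₀ := fun h => hab (by rw [h])
  have : Nonempty (Sub r p) := ⟨a₀⟩
  have hpr' : p < r := by
    rcases hpr.lt_or_eq with h | h
    · exact h
    · exfalso
      subst h
      refine hne (Subtype.ext ?_)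
      have e1 : a₀.1 = univ := by
        rw [← card_eq_iff_eq_univ, a₀.2, Fintype.card_fin]
      have e2 : b₀.1 = univ := by
        rw [← card_eq_iff_eq_univ, b₀.2, Fintype.card_fin]
      rw [e1, e2]
  -- the constraints
  have h1 := rlz_conj (K := Sub r p) (p := p) (r := r) (range r)
    (fun (q : Sub r p × Sub r p) (_ : Finset (Finset ℕ)) c => c (ref q.1) ≠ c (ref q.2))
    (fun q (c : Finset ℕ → Sub r p) => c (ref q.1) ≠ c (ref q.2)) (univ.filter fun q => q.1 ≠ q.2)
    (fun i _ F F' c _ h => h)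
    (fun q _ c c' hcc h => by
      rw [← hcc _ (ref_sub _) (ref_card _), ← hcc _ (ref_sub _) (ref_card _)]; exact h)
    (fun q _ S hS => rlz_ne hp hpr' a₀ b₀ hne (ref_card _) (ref_card _)
      ((ref_sub _).trans hS) ((ref_sub _).trans hS)) (range r) (Subset.refl _)
  have h2 := rlz_conj (K := Sub r p) (p := p) (r := r) (range r)
    (fun (β : Equiv.Perm (Sub r p)) (F : Finset (Finset ℕ)) c =>
      (∀ I, c (ref I) = β I) → ∃ e ∈ F, ¬ Good c e)
    (fun β (c : Finset ℕ → Sub r p) => Function.Injective (fun I : Sub r p => c (ref I))) univ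
    (fun i _ F F' c hF h hb => by
      obtain ⟨e, he, hg⟩ := h hb
      exact ⟨e, hF he, hg⟩)
    (fun β _ c c' hcc h => by
      intro I J hIJ
      simp only at hIJ
      rw [← hcc _ (ref_sub _) (ref_card _), ← hcc _ (ref_sub _) (ref_card _)] at hIJ
      exact h hIJ)
    (fun β _ S hS => rlz_beta hp hpr' hf ⟨a₀, b₀, hab⟩ β hS)
  obtain ⟨F, hFr, hFΦ, hFΨ⟩ := rlz_and
    (fun F F' c _ h => h)
    (fun F F' c hF h β hβ hb => by
      obtain ⟨e, he, hg⟩ := h β hβ hb
      exact ⟨e, hF he, hg⟩)
    (fun c c' hcc h β hβ => by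
      intro I J hIJ
      simp only at hIJ
      rw [← hcc _ (ref_sub _) (ref_card _), ← hcc _ (ref_sub _) (ref_card _)] at hIJ
      exact h β hβ hIJ)
    h1 h2
  -- the base colouring
  let cb : Finset ℕ → Sub r p := fun A => if h : ∃ I : Sub r p, A = ref I then h.choose else a₀
  have hcb : ∀ I : Sub r p, cb (ref I) = I := by
    intro I
    have hI : ∃ J : Sub r p, ref I = ref J := ⟨I, rfl⟩
    have : cb (ref I) = hI.choose := dif_pos hI
    rw [this]
    exact (ref_inj hI.choose_spec).symm
  obtain ⟨c, hcw, hca⟩ := hFΨ cb ⟨fun q hq => by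
    rw [hcb, hcb]; exact (mem_filter.1 hq).2, fun β _ I J hIJ => by
      simpa only [hcb] using hIJ⟩
  have hcref : ∀ I : Sub r p, c (ref I) = I := fun I => by
    rw [hca _ (ref_sub _) (ref_card _), hcb]
  have hcard : Fintype.card (Sub r p) = r.choose p := by
    rw [Fintype.card_finset_len, Fintype.card_fin]
  let eq := Fintype.equivFinOfCardEq hcard
  let G : Hypergraph r :=
    { V := range r ∪ F.sup id
      E := F
      sub := fun e he => by
        have : e ⊆ F.sup id := Finset.le_sup (f := id) he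
        exact this.trans subset_union_right
      uniform := hFr }
  refine ⟨G, ⟨fun i => (G.V.powersetCard p).filter (fun A => eq (c A) = i), ?_, ?_, ?_, ?_, ?_⟩, ?_⟩
  · intro i
    refine ⟨ref (eq.symm i), ?_⟩
    rw [mem_filter, mem_powersetCard]
    refine ⟨⟨(ref_sub _).trans subset_union_left, ref_card _⟩, ?_⟩
    rw [hcref, Equiv.apply_symm_apply]
  · intro i
    exact filter_subset _ _
  · intro i j hij
    rw [disjoint_left]
    intro A hA hB
    exact hij ((mem_filter.1 hA).2.symm.trans (mem_filter.1 hB).2)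
  · intro A hA
    exact ⟨eq (c A), mem_filter.2 ⟨hA, rfl⟩⟩
  · intro e he i hsub
    refine hcw e he ?_
    intro A hA B hB hAc hBc
    have h3 := (mem_filter.1 (hsub (mem_powersetCard.2 ⟨hA, hAc⟩))).2
    have h4 := (mem_filter.1 (hsub (mem_powersetCard.2 ⟨hB, hBc⟩))).2
    exact eq.injective (h3.trans h4.symm)
  · intro D
    by_contra hcon
    push Not at hcon
    have hch : ∀ A ∈ G.V.powersetCard p, ∃ I : Sub r p, deg G D I.1 A = 0 := by
      intro A hA
      obtain ⟨I, hI, hd⟩ := hcon A hA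
      exact ⟨⟨I, (mem_powersetCard.1 hI).2⟩, by simpa using hd⟩
    let d : Finset ℕ → Sub r p := fun A =>
      if h : A ∈ G.V.powersetCard p then (hch A h).choose else a₀
    have hgood : ∀ e ∈ F, Good d e := by
      intro e he
      refine ⟨D.ord e, D.inj e he, D.image e he, ?_⟩
      intro I hI
      have hA : I.1.image (D.ord e) ∈ G.V.powersetCard p := by
        rw [mem_powersetCard, card_image_of_injective _ (D.inj e he)]
        refine ⟨?_, I.2⟩
        refine (image_subset_image (subset_univ _)).trans ?_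
        rw [D.image e he]
        exact G.sub e he
      have h5 : d (I.1.image (D.ord e)) = (hch _ hA).choose := dif_pos hA
      have h6 := (hch _ hA).choose_spec
      rw [← h5, hI] at h6
      rw [deg, card_eq_zero, filter_eq_empty_iff] at h6
      exact h6 he rfl
    have hw : Weak p F d := fun e he => (hgood e he).not_mono hpr
    obtain ⟨hne', hbad⟩ := hFΦ d hw
    have hinj : Function.Injective (fun I : Sub r p => d (ref I)) := by
      intro I J hIJ
      by_contra hIJ'
      exact hne' (I, J) (mem_filter.2 ⟨mem_univ _, hIJ'⟩) hIJ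
    have hbij : Function.Bijective (fun I : Sub r p => d (ref I)) :=
      Finite.injective_iff_bijective.1 hinj
    obtain ⟨e, he, hb⟩ := hbad (Equiv.ofBijective _ hbij) (mem_univ _) (fun I => rfl)
    exact hb (hgood e he)

end Pool.Agent.Results.MP_2e96e9_co.Witness
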